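import Pool.Agent.U481.HW.Stm
import Mathlib

/-!
Project HW (problem MP_945c9c_an), package TWO.
-/

set_option autoImplicit false

open MeasureTheory Filter Topology Set
open scoped ENNReal NNReal Real

namespace Pool.Agent.U312.HW.TWO

open Pool.Agent.U481.HW Pool.Dav

/-- the odd power `sign t * |t| ^ q` -/
noncomputable def psi (q t : ℝ) : ℝ := (max t 0) ^ q - (max (-t) 0) ^ q

theorem psi_cont {q : ℝ} (hq : 0 < q) : Continuous (psi q) := by
  unfold psi
  apply Continuous.sub
  · exact Continuous.rpow_const (by fun_prop) (fun _ => Or.inr hq.le)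
  · exact Continuous.rpow_const (by fun_prop) (fun _ => Or.inr hq.le)

theorem psi_nonneg {q : ℝ} (hq : 0 < q) {t : ℝ} (ht : 0 ≤ t) : psi q t = t ^ q := by
  unfold psi
  rw [max_eq_left ht, max_eq_right (by linarith), Real.zero_rpow hq.ne', sub_zero]

theorem psi_nonpos {q : ℝ} (hq : 0 < q) {t : ℝ} (ht : t ≤ 0) : psi q t = -((-t) ^ q) := by
  unfold psi
  rw [max_eq_right ht, max_eq_left (by linarith), Real.zero_rpow hq.ne', zero_sub]

theorem psi_abs {q : ℝ} (hq : 0 < q) (t : ℝ) : |psi q t| = |t| ^ q := by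
  rcases le_total 0 t with h | h
  · rw [psi_nonneg hq h, abs_of_nonneg h, abs_of_nonneg (Real.rpow_nonneg h _)]
  · rw [psi_nonpos hq h, abs_of_nonpos h, abs_neg,
      abs_of_nonneg (Real.rpow_nonneg (by linarith) _)]

theorem psi_mul {q : ℝ} (hq : 0 < q) (t : ℝ) : psi q t * t = |t| ^ (q + 1) := by
  rcases le_total 0 t with h | h
  · rw [psi_nonneg hq h, abs_of_nonneg h]
    rcases eq_or_lt_of_le h with h0 | h0
    · rw [← h0, Real.zero_rpow hq.ne', Real.zero_rpow (by linarith)]; simp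
    · rw [Real.rpow_add h0, Real.rpow_one]
  · rw [psi_nonpos hq h, abs_of_nonpos h]
    rcases eq_or_lt_of_le h with h0 | h0
    · rw [h0, neg_zero, Real.zero_rpow hq.ne', Real.zero_rpow (by linarith)]; simp
    · rw [Real.rpow_add (by linarith : (0:ℝ) < -t), Real.rpow_one]
      ring

theorem int_bdd {a b B : ℝ} {g : ℝ → ℝ} (hg : Measurable g)
    (h1 : ∀ y ∈ Ioo a b, |g y| ≤ B) (h0 : ∀ y, y ∉ Ioo a b → g y = 0) : Integrable g := by
  have hi : Integrable ((Ioo a b).indicator (fun _ => B)) :=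
    (integrable_indicator_iff measurableSet_Ioo).2
      (integrableOn_const (by rw [Real.volume_Ioo]; exact ENNReal.ofReal_ne_top))
  refine hi.mono' hg.aestronglyMeasurable (ae_of_all _ ?_)
  intro y
  by_cases hy : y ∈ Ioo a b
  · rw [indicator_of_mem hy]
    exact h1 y hy
  · rw [indicator_of_notMem hy, h0 y hy]
    simp

section core

variable {a h q M : ℝ} {S : ℝ → ℝ}

/-- the zero -/
theorem exists_zero (hh : 0 < h) (hq : 0 < q) (hS : Measurable S) (h0 : ∀ y, 0 ≤ S y)
    (hM : ∀ y, S y ≤ M) (hout : ∀ y, y ∉ Ioo a (a + h) → S y = 0) :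
    ∃ c ∈ Icc a (a + h), ∫ y, psi q (y - c) * S y = 0 := by
  have hM0 : 0 ≤ M := (h0 0).trans (hM 0)
  have hcont : ContinuousOn (fun c => ∫ y, psi q (y - c) * S y) (Icc a (a + h)) := by
    refine continuousOn_of_dominated
      (bound := (Ioo a (a + h)).indicator (fun _ => h ^ q * M)) ?_ ?_ ?_ ?_
    · intro c _
      exact (((psi_cont hq).measurable.comp (measurable_id.sub_const c)).mul
        hS).aestronglyMeasurable
    · intro c hc
      refine ae_of_all _ (fun y => ?_)
      by_cases hy : y ∈ Ioo a (a + h)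
      · rw [indicator_of_mem hy, Real.norm_eq_abs, abs_mul, psi_abs hq, abs_of_nonneg (h0 y)]
        apply mul_le_mul _ (hM y) (h0 y) (by positivity)
        apply Real.rpow_le_rpow (abs_nonneg _) _ hq.le
        rw [abs_le]
        constructor <;> linarith [hy.1, hy.2, hc.1, hc.2]
      · rw [indicator_of_notMem hy, hout y hy]
        simp
    · exact (integrable_indicator_iff measurableSet_Ioo).2
        (integrableOn_const (by rw [Real.volume_Ioo]; exact ENNReal.ofReal_ne_top))
    · refine ae_of_all _ (fun y => ?_)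
      exact (((psi_cont hq).comp (continuous_const.sub continuous_id)).mul
        continuous_const).continuousOn
  have h1 : 0 ≤ ∫ y, psi q (y - a) * S y := by
    apply integral_nonneg
    intro y
    by_cases hy : y ∈ Ioo a (a + h)
    · show 0 ≤ psi q (y - a) * S y
      rw [psi_nonneg hq (by linarith [hy.1])]
      exact mul_nonneg (Real.rpow_nonneg (by linarith [hy.1]) _) (h0 y)
    · show 0 ≤ psi q (y - a) * S y
      rw [hout y hy, mul_zero]
  have h2 : ∫ y, psi q (y - (a + h)) * S y ≤ 0 := by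
    apply integral_nonpos
    intro y
    by_cases hy : y ∈ Ioo a (a + h)
    · show psi q (y - (a + h)) * S y ≤ 0
      rw [psi_nonpos hq (by linarith [hy.2])]
      have := mul_nonneg (Real.rpow_nonneg (x := -(y - (a + h))) (by linarith [hy.2]) q) (h0 y)
      linarith
    · show psi q (y - (a + h)) * S y ≤ 0
      rw [hout y hy, mul_zero]
  have := intermediate_value_Icc' (by linarith : a ≤ a + h) hcont ⟨h2, h1⟩
  obtain ⟨c, hc, h3⟩ := this
  exact ⟨c, hc, h3⟩

/-- the test function -/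
noncomputable def ff (q c : ℝ) (S : ℝ → ℝ) (y : ℝ) : ℂ := ((psi q (y - c) * S y : ℝ) : ℂ)

theorem int_g (hS : Measurable S) (h0 : ∀ y, 0 ≤ S y)
    (hM : ∀ y, S y ≤ M) (hout : ∀ y, y ∉ Ioo a (a + h) → S y = 0) {c : ℝ}
    (hc : c ∈ Icc a (a + h)) {k : ℝ → ℝ} (hk : Measurable k) {B : ℝ}
    (hB : ∀ y ∈ Ioo a (a + h), |k y| ≤ B) {r : ℝ} (hr : 0 ≤ r) :
    Integrable (fun y => |y - c| ^ r * S y * k y) := by
  have hM0 : 0 ≤ M := (h0 0).trans (hM 0)
  by_cases hne : (Ioo a (a + h)).Nonempty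
  swap
  · have : (fun y => |y - c| ^ r * S y * k y) = fun _ => 0 := by
      funext y
      rw [hout y (fun hy => hne ⟨y, hy⟩)]; simp
    rw [this]
    exact integrable_zero _ _ _
  obtain ⟨z, hz⟩ := hne
  have hB0 : 0 ≤ B := (abs_nonneg _).trans (hB z hz)
  have hh : 0 ≤ h := by linarith [hz.1, hz.2]
  refine int_bdd (a := a) (b := a + h) (B := h ^ r * M * B) ?_ ?_ ?_
  · exact ((((measurable_id.sub_const c).abs).pow_const r).mul hS).mul hk
  · intro y hy
    rw [abs_mul, abs_mul, abs_of_nonneg (h0 y), abs_of_nonneg (Real.rpow_nonneg (abs_nonneg _) _)]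
    have e1 : |y - c| ^ r ≤ h ^ r := by
      apply Real.rpow_le_rpow (abs_nonneg _) _ hr
      rw [abs_le]
      constructor <;> linarith [hy.1, hy.2, hc.1, hc.2]
    apply mul_le_mul (mul_le_mul e1 (hM y) (h0 y) (by positivity)) (hB y hy) (abs_nonneg _)
      (by positivity)
  · intro y hy
    rw [hout y hy]; simp

theorem int_f (hq : 0 < q) (hS : Measurable S) (h0 : ∀ y, 0 ≤ S y)
    (hM : ∀ y, S y ≤ M) (hout : ∀ y, y ∉ Ioo a (a + h) → S y = 0) {c : ℝ}
    (hc : c ∈ Icc a (a + h)) {k : ℝ → ℝ} (hk : Measurable k) {B : ℝ}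
    (hB : ∀ y ∈ Ioo a (a + h), |k y| ≤ B) :
    Integrable (fun y => psi q (y - c) * S y * k y) := by
  have h1 := int_g hS h0 hM hout hc hk hB hq.le
  refine h1.mono ?_ (ae_of_all _ ?_)
  · exact ((((psi_cont hq).measurable.comp (measurable_id.sub_const c)).mul
        hS).mul hk).aestronglyMeasurable
  · intro y
    simp only [Real.norm_eq_abs, abs_mul]
    rw [psi_abs hq, abs_of_nonneg (Real.rpow_nonneg (abs_nonneg (y - c)) q)]

theorem hil_lower (hh : 0 < h) (hq : 0 < q) (hS : Measurable S) (h0 : ∀ y, 0 ≤ S y)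
    (hM : ∀ y, S y ≤ M) (hout : ∀ y, y ∉ Ioo a (a + h) → S y = 0) {c : ℝ}
    (hc : c ∈ Icc a (a + h)) (hz : ∫ y, psi q (y - c) * S y = 0) {x : ℝ}
    (hx : x ∈ Ioo (a + h) (a + 2 * h)) :
    ENNReal.ofReal ((∫ y, |y - c| ^ (q + 1) * S y) / (4 * π * h ^ 2)) ≤ ‖hilbert (ff q c S) x‖ₑ := by
  have hd : 0 < x - (a + h) := by linarith [hx.1]
  have hk : Measurable (fun y : ℝ => (x - y)⁻¹) := (measurable_const.sub measurable_id).inv
  have hkB : ∀ y ∈ Ioo a (a + h), |(x - y)⁻¹| ≤ (x - (a + h))⁻¹ := by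
    intro y hy
    have : 0 < x - y := by linarith [hy.2]
    rw [abs_inv, abs_of_pos this]
    exact inv_anti₀ hd (by linarith [hy.2])
  have hi1 : Integrable (fun y => psi q (y - c) * S y * (x - y)⁻¹) :=
    int_f hq hS h0 hM hout hc hk hkB
  have hi2 : Integrable (fun y => psi q (y - c) * S y * (fun _ : ℝ => (x - c)⁻¹) y) :=
    int_f hq hS h0 hM hout hc measurable_const (fun y _ => le_refl _)
  -- the principal value
  have hH : HasHilbert (ff q c S) x
      ((1 / (π : ℂ)) * ((∫ y, psi q (y - c) * S y * (x - y)⁻¹ : ℝ) : ℂ)) := by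
    unfold HasHilbert
    refine tendsto_const_nhds.congr' ?_
    filter_upwards [Ioo_mem_nhdsGT hd] with ε hε
    unfold truncH
    congr 1
    rw [setIntegral_eq_integral_of_forall_compl_eq_zero, ← integral_complex_ofReal]
    · apply integral_congr_ae
      refine ae_of_all _ (fun y => ?_)
      simp only [ff]
      push_cast
      rw [div_eq_mul_inv]
    · intro y hy
      have hy' : |x - y| ≤ ε := by simpa using hy
      have : y ∉ Ioo a (a + h) := by
        intro h2
        have h3 := (abs_le.1 hy').2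
        linarith [h2.2, hε.2]
      simp only [ff]
      rw [hout y this]
      simp
  have hval : hilbert (ff q c S) x =
      (1 / (π : ℂ)) * ((∫ y, psi q (y - c) * S y * (x - y)⁻¹ : ℝ) : ℂ) := by
    have hex : ∃ v, HasHilbert (ff q c S) x v := ⟨_, hH⟩
    unfold hilbert
    rw [dif_pos hex]
    exact tendsto_nhds_unique hex.choose_spec hH
  -- the lower bound
  have hxc : 0 < x - c := by linarith [hc.2]
  have e1 : ∫ y, psi q (y - c) * S y * (x - y)⁻¹ =
      ∫ y, |y - c| ^ (q + 1) * S y * ((x - y)⁻¹ * (x - c)⁻¹) := by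
    have e2 : ∫ y, psi q (y - c) * S y * (x - c)⁻¹ = 0 := by
      rw [integral_mul_const, hz, zero_mul]
    have e3 : ∫ y, psi q (y - c) * S y * (x - y)⁻¹ =
        ∫ y, (psi q (y - c) * S y * (x - y)⁻¹ - psi q (y - c) * S y * (x - c)⁻¹) := by
      rw [integral_sub hi1 hi2, e2, sub_zero]
    rw [e3]
    apply integral_congr_ae
    refine ae_of_all _ (fun y => ?_)
    by_cases hy : y ∈ Ioo a (a + h)
    · have hxy : 0 < x - y := by linarith [hy.2]
      show psi q (y - c) * S y * (x - y)⁻¹ - psi q (y - c) * S y * (x - c)⁻¹ =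
        |y - c| ^ (q + 1) * S y * ((x - y)⁻¹ * (x - c)⁻¹)
      rw [← psi_mul hq (y - c)]
      field_simp
      ring
    · simp only [hout y hy]
      ring
  have hi3 : Integrable (fun y => |y - c| ^ (q + 1) * S y * ((x - y)⁻¹ * (x - c)⁻¹)) := by
    refine int_g hS h0 hM hout hc (hk.mul_const _) (B := (x - (a + h))⁻¹ * |(x - c)⁻¹|) ?_
      (by linarith)
    intro y hy
    rw [abs_mul]
    exact mul_le_mul_of_nonneg_right (hkB y hy) (abs_nonneg _)
  have hi4 : Integrable (fun y => |y - c| ^ (q + 1) * S y * (fun _ : ℝ => (4 * h ^ 2)⁻¹) y) :=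
    int_g hS h0 hM hout hc measurable_const (fun y _ => le_refl _) (by linarith)
  have e4 : (∫ y, |y - c| ^ (q + 1) * S y) * (4 * h ^ 2)⁻¹ ≤
      ∫ y, |y - c| ^ (q + 1) * S y * ((x - y)⁻¹ * (x - c)⁻¹) := by
    rw [← integral_mul_const]
    refine integral_mono hi4 hi3 (fun y => ?_)
    by_cases hy : y ∈ Ioo a (a + h)
    · have hxy : 0 < x - y := by linarith [hy.2]
      show |y - c| ^ (q + 1) * S y * (4 * h ^ 2)⁻¹ ≤
        |y - c| ^ (q + 1) * S y * ((x - y)⁻¹ * (x - c)⁻¹)
      apply mul_le_mul_of_nonneg_left _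
        (mul_nonneg (Real.rpow_nonneg (abs_nonneg _) _) (h0 y))
      rw [← mul_inv]
      apply inv_anti₀ (mul_pos hxy hxc)
      have h5 : x - y ≤ 2 * h := by linarith [hy.1, hx.2]
      have h6 : x - c ≤ 2 * h := by linarith [hc.1, hx.2]
      nlinarith
    · simp only [hout y hy]
      simp
  have hQ0 : 0 ≤ ∫ y, |y - c| ^ (q + 1) * S y :=
    integral_nonneg (fun y => mul_nonneg (Real.rpow_nonneg (abs_nonneg _) _) (h0 y))
  rw [hval, ← ofReal_norm]
  apply ENNReal.ofReal_le_ofReal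
  rw [norm_mul, Complex.norm_real, e1, norm_div, norm_one, Complex.norm_real,
    Real.norm_of_nonneg Real.pi_pos.le, Real.norm_eq_abs]
  have hpi := Real.pi_pos
  have e5 : (∫ y, |y - c| ^ (q + 1) * S y) / (4 * π * h ^ 2) =
      1 / π * ((∫ y, |y - c| ^ (q + 1) * S y) * (4 * h ^ 2)⁻¹) := by
    field_simp
  rw [e5]
  exact mul_le_mul_of_nonneg_left (e4.trans (le_abs_self _)) (by positivity)

end core

section weight

variable {p : ℝ} {U : ℝ → ℝ≥0} {a h : ℝ}

theorem sg_meas (p : ℝ) (hU : Measurable U) : Measurable (sg p U) := by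
  unfold sg
  exact (hU.coe_nnreal_ennreal).pow_const _

/-- the truncated dual weight -/
noncomputable def Sn (p : ℝ) (U : ℝ → ℝ≥0) (a h : ℝ) (n : ℕ) (x : ℝ) : ℝ :=
  (Ioo a (a + h) ∩ {y | sg p U y ≤ n}).indicator (fun y => (sg p U y).toReal) x

theorem Sn_meas (hU : Measurable U) (n : ℕ) : Measurable (Sn p U a h n) := by
  unfold Sn
  exact (sg_meas p hU).ennreal_toReal.indicator
    (measurableSet_Ioo.inter (measurableSet_le (sg_meas p hU) measurable_const))

theorem Sn_nonneg (n : ℕ) (x : ℝ) : 0 ≤ Sn p U a h n x := by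
  unfold Sn
  exact indicator_nonneg (fun _ _ => ENNReal.toReal_nonneg) _

theorem Sn_le (n : ℕ) (x : ℝ) : Sn p U a h n x ≤ n := by
  unfold Sn
  by_cases hx : x ∈ Ioo a (a + h) ∩ {y | sg p U y ≤ n}
  · rw [indicator_of_mem hx]
    have h1 : sg p U x ≤ n := hx.2
    have := ENNReal.toReal_mono (by simp) h1
    simpa using this
  · rw [indicator_of_notMem hx]
    positivity

theorem Sn_out (n : ℕ) (y : ℝ) (hy : y ∉ Ioo a (a + h)) : Sn p U a h n y = 0 := by
  unfold Sn
  rw [indicator_of_notMem (fun hx => hy hx.1)]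

/-- the pointwise identity -/
theorem point (hp : 1 < p) (n : ℕ) (c y : ℝ) :
    ‖ff (1 / (p - 1)) c (Sn p U a h n) y‖ₑ ^ p * (U y : ℝ≥0∞) =
      ENNReal.ofReal (|y - c| ^ (1 / (p - 1) + 1) * Sn p U a h n y) := by
  have hq : 0 < 1 / (p - 1) := by
    have : 0 < p - 1 := by linarith
    positivity
  by_cases hy : y ∈ Ioo a (a + h) ∩ {y | sg p U y ≤ n}
  · have hS : Sn p U a h n y = (sg p U y).toReal := by
      unfold Sn
      rw [indicator_of_mem hy]
    have h1 : sg p U y ≤ n := hy.2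
    have hU0 : U y ≠ 0 := by
      intro h0
      unfold sg at h1
      rw [h0] at h1
      have h2 : -1 / (p - 1) < 0 := by
        have : 0 < p - 1 := by linarith
        apply div_neg_of_neg_of_pos (by norm_num) this
      rw [ENNReal.coe_zero, ENNReal.zero_rpow_of_neg h2, top_le_iff] at h1
      exact absurd h1 (by simp)
    have hu : (0:ℝ) < (U y : ℝ) := by
      exact_mod_cast pos_iff_ne_zero.2 hU0
    have hs : (sg p U y).toReal = (U y : ℝ) ^ (-(1 / (p - 1))) := by
      unfold sg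
      rw [← ENNReal.toReal_rpow]
      congr 1
      ring
    have hn : ‖ff (1 / (p - 1)) c (Sn p U a h n) y‖ =
        |y - c| ^ (1 / (p - 1)) * (U y : ℝ) ^ (-(1 / (p - 1))) := by
      unfold ff
      rw [Complex.norm_real, Real.norm_eq_abs, abs_mul, psi_abs hq, hS, hs,
        abs_of_nonneg (Real.rpow_nonneg hu.le _)]
    rw [← ofReal_norm, hn, ENNReal.ofReal_rpow_of_nonneg (by positivity) (by linarith),
      ← ENNReal.ofReal_coe_nnreal, ← ENNReal.ofReal_mul (by positivity), hS, hs]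
    congr 1
    rw [Real.mul_rpow (by positivity) (by positivity), ← Real.rpow_mul (abs_nonneg _),
      ← Real.rpow_mul hu.le, mul_assoc]
    have e1 : 1 / (p - 1) * p = 1 / (p - 1) + 1 := by
      have : p - 1 ≠ 0 := by linarith
      field_simp
      ring
    have e2 : (U y : ℝ) ^ (-(1 / (p - 1)) * p) * (U y : ℝ) = (U y : ℝ) ^ (-(1 / (p - 1))) := by
      have e3 : -(1 / (p - 1)) * p = -(1 / (p - 1)) - 1 := by
        have : p - 1 ≠ 0 := by linarith
        field_simp
        ring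
      rw [e3, Real.rpow_sub_one hu.ne']
      field_simp
    rw [e1, e2]
  · have hS : Sn p U a h n y = 0 := by
      unfold Sn
      rw [indicator_of_notMem hy]
    unfold ff
    rw [hS]
    simp [ENNReal.zero_rpow_of_pos (by linarith : 0 < p)]

end weight

/-- the cancellation -/
theorem cancel {p : ℝ} (hp : 1 < p) {u C : ℝ≥0∞} {Q r : ℝ} (hr : 0 < r) (hQ : 0 ≤ Q)
    (h1 : ENNReal.ofReal (Q / r) ^ p * u ≤ C * ENNReal.ofReal Q) :
    u * ENNReal.ofReal Q ^ (p - 1) ≤ C * ENNReal.ofReal r ^ p := by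
  rcases eq_or_lt_of_le hQ with h0 | h0
  · rw [← h0, ENNReal.ofReal_zero, ENNReal.zero_rpow_of_pos (by linarith), mul_zero]
    exact zero_le
  · have hQ0 : ENNReal.ofReal Q ≠ 0 := by simpa using h0
    have hQt : ENNReal.ofReal Q ≠ ⊤ := ENNReal.ofReal_ne_top
    have hr0 : ENNReal.ofReal r ≠ 0 := by simpa using hr
    have e1 : ENNReal.ofReal Q = ENNReal.ofReal (Q / r) * ENNReal.ofReal r := by
      rw [← ENNReal.ofReal_mul (by positivity)]
      congr 1
      field_simp
    have e2 : ENNReal.ofReal Q ^ p = ENNReal.ofReal (Q / r) ^ p * ENNReal.ofReal r ^ p := by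
      conv_lhs => rw [e1]
      rw [ENNReal.mul_rpow_of_nonneg _ _ (by linarith)]
    have e3 : ENNReal.ofReal Q ^ p = ENNReal.ofReal Q ^ (p - 1) * ENNReal.ofReal Q := by
      have h5 := ENNReal.rpow_add (p - 1) 1 hQ0 hQt
      rw [ENNReal.rpow_one, sub_add_cancel] at h5
      exact h5
    have h2 : (u * ENNReal.ofReal Q ^ (p - 1)) * ENNReal.ofReal Q ≤
        (C * ENNReal.ofReal r ^ p) * ENNReal.ofReal Q := by
      calc (u * ENNReal.ofReal Q ^ (p - 1)) * ENNReal.ofReal Q
          = u * (ENNReal.ofReal Q ^ (p - 1) * ENNReal.ofReal Q) := by ring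
        _ = (ENNReal.ofReal (Q / r) ^ p * u) * ENNReal.ofReal r ^ p := by
            rw [← e3, e2]; ring
        _ ≤ (C * ENNReal.ofReal Q) * ENNReal.ofReal r ^ p := mul_le_mul_left h1 _
        _ = _ := by ring
    exact (ENNReal.mul_le_mul_iff_left hQ0 hQt).1 h2

/-- the inequality for the truncated weights -/
theorem step {p : ℝ} (hp : 1 < p) {U : ℝ → ℝ≥0} (hU : IsWeight U) {C : ℝ≥0∞}
    (hC : ∀ f : ℝ → ℂ, Integrable f → ∫ x, f x = 0 →
      (∫⁻ x, ‖hilbert f x‖ₑ ^ p * (U x : ℝ≥0∞)) ≤ C * ∫⁻ x, ‖f x‖ₑ ^ p * (U x : ℝ≥0∞))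
    {a h : ℝ} (hh : 0 < h) (n : ℕ) : ∃ c ∈ Icc a (a + h),
      (∫⁻ x in Ioo (a + h) (a + 2 * h), (U x : ℝ≥0∞)) *
        (∫⁻ x, ENNReal.ofReal (|x - c| ^ (1 / (p - 1) + 1) * Sn p U a h n x)) ^ (p - 1) ≤
        C * ENNReal.ofReal (4 * π * h ^ 2) ^ p := by
  have hq : 0 < 1 / (p - 1) := by
    have : 0 < p - 1 := by linarith
    positivity
  have hS := Sn_meas (p := p) (a := a) (h := h) hU.meas n
  obtain ⟨c, hc, hz⟩ := exists_zero (a := a) hh hq hS (Sn_nonneg n) (Sn_le n) (Sn_out n)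
  refine ⟨c, hc, ?_⟩
  have hi : Integrable (fun y => psi (1 / (p - 1)) (y - c) * Sn p U a h n y) := by
    have := int_f hq hS (Sn_nonneg n) (Sn_le n) (Sn_out n) hc (k := fun _ => 1)
      measurable_const (B := 1) (fun y _ => by simp)
    simpa using this
  have hi2 : Integrable (fun y => |y - c| ^ (1 / (p - 1) + 1) * Sn p U a h n y) := by
    have := int_g hS (Sn_nonneg n) (Sn_le n) (Sn_out n) hc (k := fun _ => 1)
      measurable_const (B := 1) (fun y _ => by simp) (r := 1 / (p - 1) + 1) (by linarith)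
    simpa using this
  have hQ : ENNReal.ofReal (∫ y, |y - c| ^ (1 / (p - 1) + 1) * Sn p U a h n y) =
      ∫⁻ x, ENNReal.ofReal (|x - c| ^ (1 / (p - 1) + 1) * Sn p U a h n x) :=
    ofReal_integral_eq_lintegral_ofReal hi2
      (ae_of_all _ (fun y => mul_nonneg (Real.rpow_nonneg (abs_nonneg _) _) (Sn_nonneg n y)))
  have hQ0 : 0 ≤ ∫ y, |y - c| ^ (1 / (p - 1) + 1) * Sn p U a h n y :=
    integral_nonneg (fun y => mul_nonneg (Real.rpow_nonneg (abs_nonneg _) _) (Sn_nonneg n y))
  have hmain := hC (ff (1 / (p - 1)) c (Sn p U a h n)) hi.ofReal (by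
    unfold ff
    rw [integral_complex_ofReal, hz]
    simp)
  rw [lintegral_congr (fun y => point hp n c y), ← hQ] at hmain
  rw [← hQ]
  apply cancel hp (by positivity) hQ0
  refine le_trans ?_ hmain
  calc ENNReal.ofReal ((∫ y, |y - c| ^ (1 / (p - 1) + 1) * Sn p U a h n y) / (4 * π * h ^ 2)) ^ p *
        (∫⁻ x in Ioo (a + h) (a + 2 * h), (U x : ℝ≥0∞))
      = ∫⁻ x in Ioo (a + h) (a + 2 * h), ENNReal.ofReal
          ((∫ y, |y - c| ^ (1 / (p - 1) + 1) * Sn p U a h n y) / (4 * π * h ^ 2)) ^ p *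
            (U x : ℝ≥0∞) := by
        rw [lintegral_const_mul]
        exact hU.meas.coe_nnreal_ennreal
    _ ≤ ∫⁻ x in Ioo (a + h) (a + 2 * h), ‖hilbert (ff (1 / (p - 1)) c (Sn p U a h n)) x‖ₑ ^ p *
            (U x : ℝ≥0∞) := by
        apply setLIntegral_mono' measurableSet_Ioo
        intro x hx
        apply mul_le_mul_left
        apply ENNReal.rpow_le_rpow _ (by linarith)
        exact hil_lower hh hq hS (Sn_nonneg n) (Sn_le n) (Sn_out n) hc hz hx
    _ ≤ _ := setLIntegral_le_lintegral _ _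

/-- package TWO -/
theorem main : S_dbl → S_pos → S_two := by
  intro hdbl hpos p hp U hU hadm
  obtain ⟨C, hCt, hC⟩ := hadm
  obtain ⟨D, hDt, hD⟩ := hdbl p hp U hU ⟨C, hCt, hC⟩
  have hU0 := hpos p hp U hU ⟨C, hCt, hC⟩
  have hp1 : 0 < p - 1 := by linarith
  have hq : 0 < 1 / (p - 1) := by positivity
  refine ⟨D * (C * ENNReal.ofReal (4 * π) ^ p), ?_, ?_⟩
  · exact ENNReal.mul_lt_top hDt (ENNReal.mul_lt_top hCt
      (ENNReal.rpow_lt_top_of_nonneg (by linarith) ENNReal.ofReal_ne_top))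
  intro a h hh
  choose c hc hc2 using fun n : ℕ => step (a := a) hp hU hC hh n
  obtain ⟨c0, hc0, φ, hφ, hlim⟩ := isCompact_Icc.tendsto_subseq hc
  refine ⟨c0, hc0, ?_⟩
  set B : ℝ≥0∞ := D * (C * ENNReal.ofReal (4 * π) ^ p) * ENNReal.ofReal h ^ (2 * p) with hB
  set V : ℝ≥0∞ := ∫⁻ x in Ioo a (a + h), (U x : ℝ≥0∞) with hV
  have hVt : V ≠ ⊤ := (hU.fin a (a + h)).ne
  set X : ℕ → ℝ≥0∞ := fun n =>
    ∫⁻ x, ENNReal.ofReal (|x - c n| ^ (1 / (p - 1) + 1) * Sn p U a h n x) with hX
  have h1 : ∀ n, V * X n ^ (p - 1) ≤ B := by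
    intro n
    have e1 : ENNReal.ofReal (4 * π * h ^ 2) ^ p =
        ENNReal.ofReal (4 * π) ^ p * ENNReal.ofReal h ^ (2 * p) := by
      rw [ENNReal.ofReal_mul (by positivity), ENNReal.mul_rpow_of_nonneg _ _ (by linarith),
        ENNReal.ofReal_pow hh.le, ← ENNReal.rpow_natCast, ← ENNReal.rpow_mul]
      norm_num
    calc V * X n ^ (p - 1) ≤ (D * (∫⁻ x in Ioo (a + h) (a + 2 * h), (U x : ℝ≥0∞))) *
          X n ^ (p - 1) := mul_le_mul_left (hD a h hh).1 _
      _ = D * ((∫⁻ x in Ioo (a + h) (a + 2 * h), (U x : ℝ≥0∞)) * X n ^ (p - 1)) := by ring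
      _ ≤ D * (C * ENNReal.ofReal (4 * π * h ^ 2) ^ p) := mul_le_mul_right (hc2 n) _
      _ = B := by rw [hB, e1]; ring
  by_cases hV0 : V = 0
  · rw [hV0, zero_mul]
    exact zero_le
  have h2 : ∀ n, X n ≤ (B / V) ^ (1 / (p - 1)) := by
    intro n
    have h3 : X n ^ (p - 1) ≤ B / V := by
      rw [ENNReal.le_div_iff_mul_le (Or.inl hV0) (Or.inl hVt), mul_comm]
      exact h1 n
    have h4 := ENNReal.rpow_le_rpow h3 hq.le
    rwa [← ENNReal.rpow_mul, mul_one_div_cancel hp1.ne', ENNReal.rpow_one] at h4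
  have h3 : (∫⁻ x in Ioo a (a + h), ENNReal.ofReal |x - c0| ^ (p / (p - 1)) * sg p U x) ≤
      (B / V) ^ (1 / (p - 1)) := by
    have hmeas : ∀ n : ℕ, Measurable (fun x =>
        ENNReal.ofReal (|x - c (φ n)| ^ (1 / (p - 1) + 1) * Sn p U a h (φ n) x)) := by
      intro n
      exact ((((measurable_id.sub_const _).abs).pow_const _).mul (Sn_meas hU.meas _)).ennreal_ofReal
    calc (∫⁻ x in Ioo a (a + h), ENNReal.ofReal |x - c0| ^ (p / (p - 1)) * sg p U x)
        ≤ ∫⁻ x in Ioo a (a + h), liminf (fun n =>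
            ENNReal.ofReal (|x - c (φ n)| ^ (1 / (p - 1) + 1) * Sn p U a h (φ n) x)) atTop := by
          apply lintegral_mono_ae
          filter_upwards [ae_restrict_mem measurableSet_Ioo, ae_restrict_of_ae hU0] with x hx hx0
          apply le_of_eq
          symm
          apply Tendsto.liminf_eq
          have hst : sg p U x ≠ ⊤ := by
            unfold sg
            rw [Ne, ENNReal.rpow_eq_top_iff]
            push Not
            constructor
            · intro h5
              exact absurd (by exact_mod_cast h5) hx0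
            · intro h5
              exact absurd h5 ENNReal.coe_ne_top
          have hev : ∀ᶠ n : ℕ in atTop, Sn p U a h (φ n) x = (sg p U x).toReal := by
            obtain ⟨N, hN⟩ := ENNReal.exists_nat_gt hst
            filter_upwards [eventually_ge_atTop N] with n hn
            unfold Sn
            rw [indicator_of_mem]
            refine ⟨hx, ?_⟩
            show sg p U x ≤ (φ n : ℝ≥0∞)
            refine hN.le.trans ?_
            exact_mod_cast hn.trans (hφ.id_le n)
          have e1 : ENNReal.ofReal |x - c0| ^ (p / (p - 1)) * sg p U x =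
              ENNReal.ofReal (|x - c0| ^ (1 / (p - 1) + 1) * (sg p U x).toReal) := by
            rw [ENNReal.ofReal_mul (by positivity), ENNReal.ofReal_toReal hst,
              ENNReal.ofReal_rpow_of_nonneg (abs_nonneg _) (by positivity)]
            have : p / (p - 1) = 1 / (p - 1) + 1 := by
              field_simp
              ring
            rw [this]
          rw [e1]
          have e2 : Tendsto (fun n => ENNReal.ofReal (|x - c (φ n)| ^ (1 / (p - 1) + 1) *
              (sg p U x).toReal)) atTop (𝓝 (ENNReal.ofReal (|x - c0| ^ (1 / (p - 1) + 1) *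
              (sg p U x).toReal))) := by
            apply ENNReal.tendsto_ofReal
            apply Tendsto.mul_const
            apply Tendsto.rpow_const _ (Or.inr (by linarith))
            exact (tendsto_const_nhds.sub hlim).abs
          refine e2.congr' ?_
          filter_upwards [hev] with n hn
          rw [hn]
      _ ≤ ∫⁻ x, liminf (fun n =>
            ENNReal.ofReal (|x - c (φ n)| ^ (1 / (p - 1) + 1) * Sn p U a h (φ n) x)) atTop :=
          setLIntegral_le_lintegral _ _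
      _ ≤ liminf (fun n => X (φ n)) atTop := lintegral_liminf_le hmeas
      _ ≤ (B / V) ^ (1 / (p - 1)) := by
          apply liminf_le_of_le
          · isBoundedDefault
          · intro b hb
            obtain ⟨n, hn⟩ := hb.exists
            exact hn.trans (h2 _)
  calc V * (∫⁻ x in Ioo a (a + h), ENNReal.ofReal |x - c0| ^ (p / (p - 1)) * sg p U x) ^ (p - 1)
      ≤ V * ((B / V) ^ (1 / (p - 1))) ^ (p - 1) :=
        mul_le_mul_right (ENNReal.rpow_le_rpow h3 hp1.le) _
    _ = V * (B / V) := by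
        rw [← ENNReal.rpow_mul, one_div_mul_cancel hp1.ne', ENNReal.rpow_one]
    _ ≤ B := ENNReal.mul_div_le

end Pool.Agent.U312.HW.TWO
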